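import Pool.Agent.MP_ecfd11_lc.H20.Defs2

/-!
Cardinals of HOD.
-/

namespace Pool.Agent.MP_ecfd11_lc.H46

universe u

open ZFSet

/-- `x` is a cardinal of HOD: an ordinal such that HOD has no one-to-one function from `x` into a
smaller ordinal. -/
def HODCard (x : ZFSet.{u}) : Prop :=
  x.IsOrdinal ∧ ∀ b ∈ x, ¬ ∃ f, HOD Set.univ f ∧ IsInj x b f

/-- `x` is a cardinal of HOD strictly between `d` and the successor cardinal of `d`. -/
def Between (d x : ZFSet.{u}) : Prop := d ∈ x ∧ x ∈ H20.succCard d ∧ HODCard x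

end Pool.Agent.MP_ecfd11_lc.H46
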